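import Pool.Agent.BC.Defs

/-!
# BC: API for `av`, `av1`, `bad`, `bad1`
-/

set_option autoImplicit false

open Finset

noncomputable section

namespace Pool.Agent.BC.H51

open Pool.Agent.BC

section

variable {V : Type} [AddCommGroup V] [Module ℝ V] {t m : ℕ}

theorem card_cfg (t m : ℕ) : ((2 : ℝ) ^ m) ^ t = (Fintype.card (Fin t → Fin (2 ^ m)) : ℝ) := by
  simp

theorem pos1 (m : ℕ) : (0 : ℝ) < ((2 : ℝ) ^ m)⁻¹ := by positivity

theorem pos2 (t m : ℕ) : (0 : ℝ) < (((2 : ℝ) ^ m) ^ t)⁻¹ := by positivity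

theorem av_add (G H : (Fin t → ℤ) → V) (c : Fin t → ℤ) :
    av m (fun d => G d + H d) c = av m G c + av m H c := by
  simp [av, sum_add_distrib]

theorem av_sub (G H : (Fin t → ℤ) → V) (c : Fin t → ℤ) :
    av m (fun d => G d - H d) c = av m G c - av m H c := by
  simp [av, sum_sub_distrib, smul_sub]

theorem av_smul (a : ℝ) (G : (Fin t → ℤ) → V) (c : Fin t → ℤ) :
    av m (fun d => a • G d) c = a • av m G c := by
  simp only [av, ← smul_sum]
  exact smul_comm _ _ _

theorem av_const (v : V) (c : Fin t → ℤ) : av m (fun _ => v) c = v := by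
  have h : (((2 : ℝ) ^ m) ^ t) ≠ 0 := by positivity
  simp only [av, sum_const, card_univ, Fintype.card_pi, Fintype.card_fin, prod_const]
  rw [← Nat.cast_smul_eq_nsmul ℝ, smul_smul]
  push_cast
  rw [inv_mul_cancel₀ h, one_smul]

theorem av_sum {ι : Type*} (s : Finset ι) (G : ι → (Fin t → ℤ) → V) (c : Fin t → ℤ) :
    av m (fun d => ∑ i ∈ s, G i d) c = ∑ i ∈ s, av m (G i) c := by
  simp only [av]
  rw [sum_comm, smul_sum]

theorem dt_zero (c : Fin t → ℤ) (r : Fin t → Fin (2 ^ 0)) : dt 0 c r = c := by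
  funext i
  have h := (r i).2
  have h0 : ((r i : ℕ)) = 0 := by
    have h1 : (r i : ℕ) < 1 := by simpa using h
    omega
  simp [dt, h0]

theorem av_zero (G : (Fin t → ℤ) → V) (c : Fin t → ℤ) : av 0 G c = G c := by
  have h : ∀ d, d = c → G d = G c := fun d hd => by rw [hd]
  have h2 : av 0 G c = av 0 (fun _ => G c) c := by
    simp only [av]
    congr 1
    refine sum_congr rfl fun r _ => h _ (dt_zero c r)
  rw [h2, av_const]

theorem av1_add (G H : ℤ → V) (j : ℤ) :
    av1 m (fun d => G d + H d) j = av1 m G j + av1 m H j := by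
  simp [av1, sum_add_distrib]

theorem av1_sub (G H : ℤ → V) (j : ℤ) :
    av1 m (fun d => G d - H d) j = av1 m G j - av1 m H j := by
  simp [av1, sum_sub_distrib, smul_sub]

theorem av1_smul (a : ℝ) (G : ℤ → V) (j : ℤ) :
    av1 m (fun d => a • G d) j = a • av1 m G j := by
  simp only [av1, ← smul_sum]
  exact smul_comm _ _ _

theorem av1_const (v : V) (j : ℤ) : av1 m (fun _ => v) j = v := by
  have h : ((2 : ℝ) ^ m) ≠ 0 := by positivity
  simp only [av1, sum_const, card_univ, Fintype.card_fin]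
  rw [← Nat.cast_smul_eq_nsmul ℝ, smul_smul]
  push_cast
  rw [inv_mul_cancel₀ h, one_smul]

theorem av1_sum {ι : Type*} (s : Finset ι) (G : ι → ℤ → V) (j : ℤ) :
    av1 m (fun d => ∑ i ∈ s, G i d) j = ∑ i ∈ s, av1 m (G i) j := by
  simp only [av1]
  rw [sum_comm, smul_sum]

theorem av1_zero (G : ℤ → V) (j : ℤ) : av1 0 G j = G j := by
  have : av1 0 G j = av1 0 (fun _ => G j) j := by
    simp only [av1]
    congr 1
    refine sum_congr rfl fun r _ => ?_
    have h0 : ((r : ℕ)) = 0 := by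
      have h1 := r.2
      have h2 : (r : ℕ) < 1 := by simpa using h1
      omega
    simp [h0]
  rw [this, av1_const]

end

section

variable {t m : ℕ}

theorem av_mono {G H : (Fin t → ℤ) → ℝ} {c : Fin t → ℤ} (h : ∀ r, G (dt m c r) ≤ H (dt m c r)) :
    av m G c ≤ av m H c := by
  simp only [av, smul_eq_mul]
  exact mul_le_mul_of_nonneg_left (sum_le_sum fun r _ => h r) (pos2 t m).le

theorem av_mono' {G H : (Fin t → ℤ) → ℝ} {c : Fin t → ℤ} (h : ∀ d, G d ≤ H d) :
    av m G c ≤ av m H c := av_mono fun _ => h _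

theorem av_nonneg {G : (Fin t → ℤ) → ℝ} {c : Fin t → ℤ} (h : ∀ r, 0 ≤ G (dt m c r)) :
    0 ≤ av m G c := by
  have := av_mono (G := fun _ => (0 : ℝ)) (H := G) (c := c) h
  rwa [av_const] at this

theorem av_le {G : (Fin t → ℤ) → ℝ} {c : Fin t → ℤ} {B : ℝ} (h : ∀ r, G (dt m c r) ≤ B) :
    av m G c ≤ B := by
  have := av_mono (G := G) (H := fun _ => B) (c := c) h
  rwa [av_const] at this

theorem le_av {G : (Fin t → ℤ) → ℝ} {c : Fin t → ℤ} {B : ℝ} (h : ∀ r, B ≤ G (dt m c r)) :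
    B ≤ av m G c := by
  have := av_mono (G := fun _ => B) (H := G) (c := c) h
  rwa [av_const] at this

theorem av_mul (a : ℝ) (G : (Fin t → ℤ) → ℝ) (c : Fin t → ℤ) :
    av m (fun d => a * G d) c = a * av m G c := av_smul a G c

theorem norm_av_le {V : Type} [NormedAddCommGroup V] [NormedSpace ℝ V] (G : (Fin t → ℤ) → V)
    (c : Fin t → ℤ) : ‖av m G c‖ ≤ av m (fun d => ‖G d‖) c := by
  simp only [av, smul_eq_mul, norm_smul, Real.norm_of_nonneg (pos2 t m).le]
  exact mul_le_mul_of_nonneg_left (norm_sum_le _ _) (pos2 t m).le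

/-- a linear functional of an average -/
theorem map_av {V : Type} [NormedAddCommGroup V] [NormedSpace ℝ V] (f : V →L[ℝ] ℝ)
    (G : (Fin t → ℤ) → V) (c : Fin t → ℤ) : f (av m G c) = av m (fun d => f (G d)) c := by
  simp [av]

/-- `(av G)² ≤ av G²` -/
theorem av_sq_le (G : (Fin t → ℤ) → ℝ) (c : Fin t → ℤ) :
    (av m G c) ^ 2 ≤ av m (fun d => G d ^ 2) c := by
  have h : 0 ≤ av m (fun d => (G d - av m G c) ^ 2) c := av_nonneg fun r => sq_nonneg _
  have e : av m (fun d => (G d - av m G c) ^ 2) c =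
      av m (fun d => G d ^ 2) c - 2 * av m G c * av m G c + av m G c ^ 2 := by
    have e1 : (fun d => (G d - av m G c) ^ 2) =
        fun d => (G d ^ 2 - 2 * av m G c * G d) + av m G c ^ 2 := by
      funext d; ring
    rw [e1, av_add (fun d => G d ^ 2 - 2 * av m G c * G d) (fun _ => av m G c ^ 2),
      av_sub (fun d => G d ^ 2) (fun d => 2 * av m G c * G d), av_const, av_mul]
  nlinarith

theorem av1_mono {G H : ℤ → ℝ} {j : ℤ}
    (h : ∀ r : Fin (2 ^ m), G (2 ^ m * j + (r : ℕ)) ≤ H (2 ^ m * j + (r : ℕ))) :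
    av1 m G j ≤ av1 m H j := by
  simp only [av1, smul_eq_mul]
  exact mul_le_mul_of_nonneg_left (sum_le_sum fun r _ => h r) (pos1 m).le

theorem av1_mono' {G H : ℤ → ℝ} {j : ℤ} (h : ∀ d, G d ≤ H d) :
    av1 m G j ≤ av1 m H j := av1_mono fun _ => h _

theorem av1_nonneg {G : ℤ → ℝ} {j : ℤ} (h : ∀ d, 0 ≤ G d) : 0 ≤ av1 m G j := by
  have := av1_mono' (m := m) (G := fun _ => (0 : ℝ)) (H := G) (j := j) h
  rwa [av1_const] at this

theorem av1_le {G : ℤ → ℝ} {j : ℤ} {B : ℝ} (h : ∀ d, G d ≤ B) : av1 m G j ≤ B := by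
  have := av1_mono' (m := m) (G := G) (H := fun _ => B) (j := j) h
  rwa [av1_const] at this

theorem le_av1 {G : ℤ → ℝ} {j : ℤ} {B : ℝ} (h : ∀ d, B ≤ G d) : B ≤ av1 m G j := by
  have := av1_mono' (m := m) (G := fun _ => B) (H := G) (j := j) h
  rwa [av1_const] at this

theorem av1_mul (a : ℝ) (G : ℤ → ℝ) (j : ℤ) :
    av1 m (fun d => a * G d) j = a * av1 m G j := av1_smul a G j

theorem norm_av1_le {V : Type} [NormedAddCommGroup V] [NormedSpace ℝ V] (G : ℤ → V)
    (j : ℤ) : ‖av1 m G j‖ ≤ av1 m (fun d => ‖G d‖) j := by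
  simp only [av1, smul_eq_mul, norm_smul, Real.norm_of_nonneg (pos1 m).le]
  exact mul_le_mul_of_nonneg_left (norm_sum_le _ _) (pos1 m).le

theorem map_av1 {V : Type} [NormedAddCommGroup V] [NormedSpace ℝ V] (f : V →L[ℝ] ℝ)
    (G : ℤ → V) (j : ℤ) : f (av1 m G j) = av1 m (fun d => f (G d)) j := by
  simp [av1]

theorem av1_sq_le (G : ℤ → ℝ) (j : ℤ) :
    (av1 m G j) ^ 2 ≤ av1 m (fun d => G d ^ 2) j := by
  have h : 0 ≤ av1 m (fun d => (G d - av1 m G j) ^ 2) j := av1_nonneg fun r => sq_nonneg _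
  have e : av1 m (fun d => (G d - av1 m G j) ^ 2) j =
      av1 m (fun d => G d ^ 2) j - 2 * av1 m G j * av1 m G j + av1 m G j ^ 2 := by
    have e1 : (fun d => (G d - av1 m G j) ^ 2) =
        fun d => (G d ^ 2 - 2 * av1 m G j * G d) + av1 m G j ^ 2 := by
      funext d; ring
    rw [e1, av1_add (fun d => G d ^ 2 - 2 * av1 m G j * G d) (fun _ => av1 m G j ^ 2),
      av1_sub (fun d => G d ^ 2) (fun d => 2 * av1 m G j * G d), av1_const, av1_mul]
  nlinarith

/-! ### proportions -/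

theorem bad_nonneg (A : (Fin t → ℤ) → Prop) (c : Fin t → ℤ) : 0 ≤ bad m A c := by
  classical
  exact av_nonneg fun r => by split_ifs <;> simp

theorem bad_le_one (A : (Fin t → ℤ) → Prop) (c : Fin t → ℤ) : bad m A c ≤ 1 := by
  classical
  exact av_le fun r => by split_ifs <;> simp

/-- a weaker property is violated less often -/
theorem bad_mono {A B : (Fin t → ℤ) → Prop} {c : Fin t → ℤ} (h : ∀ d, A d → B d) :
    bad m B c ≤ bad m A c := by
  classical
  refine av_mono' fun d => ?_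
  by_cases hA : A d
  · simp [hA, h d hA]
  · simp only [hA, if_false]
    split_ifs <;> simp

theorem bad_and {A B : (Fin t → ℤ) → Prop} {c : Fin t → ℤ} :
    bad m (fun d => A d ∧ B d) c ≤ bad m A c + bad m B c := by
  classical
  unfold bad
  rw [← av_add]
  refine av_mono' fun d => ?_
  by_cases hA : A d <;> by_cases hB : B d <;> simp [hA, hB]

theorem bad_forall {ι : Type*} (s : Finset ι) {A : ι → (Fin t → ℤ) → Prop} {c : Fin t → ℤ} :
    bad m (fun d => ∀ i ∈ s, A i d) c ≤ ∑ i ∈ s, bad m (A i) c := by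
  classical
  induction s using Finset.induction_on with
  | empty =>
    rw [sum_empty]
    exact av_le fun r => by simp
  | insert a s ha ih =>
    rw [sum_insert ha]
    refine le_trans (bad_mono (A := fun d => A a d ∧ ∀ i ∈ s, A i d) ?_)
      (bad_and.trans (by linarith))
    intro d hd i hi
    rcases Finset.mem_insert.1 hi with rfl | hi
    · exact hd.1
    · exact hd.2 i hi

/-- Markov -/
theorem markov {G : (Fin t → ℤ) → ℝ} {c : Fin t → ℤ} {κ : ℝ} (hκ : 0 < κ)
    (h : ∀ r, 0 ≤ G (dt m c r)) : bad m (fun d => G d ≤ κ) c ≤ av m G c / κ := by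
  classical
  rw [le_div_iff₀ hκ, mul_comm, bad, ← av_mul]
  refine av_mono fun r => ?_
  split_ifs with hG
  · simpa using h r
  · push Not at hG
    linarith

/-- selection -/
theorem select {Φ : (Fin t → ℤ) → ℝ} {A : (Fin t → ℤ) → Prop} {c : Fin t → ℤ} {Φ₀ β : ℝ}
    (hβ : β < 1) (hA : bad m A c ≤ β) (h0 : ∀ r, 0 ≤ Φ (dt m c r)) (hΦ : av m Φ c ≤ Φ₀) :
    ∃ r, A (dt m c r) ∧ Φ (dt m c r) ≤ Φ₀ / (1 - β) := by
  classical
  by_contra hcon
  push Not at hcon
  have hb : 0 < 1 - β := by linarith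
  have hΦ0 : 0 ≤ Φ₀ := (av_nonneg h0).trans hΦ
  set q : ℝ := Φ₀ / (1 - β) with hq
  have hq0 : 0 ≤ q := div_nonneg hΦ0 hb.le
  -- the proportion of good points is positive
  have hgood : av m (fun d => if A d then (1 : ℝ) else 0) c = 1 - bad m A c := by
    have : (fun d => if A d then (1 : ℝ) else 0) = fun d => 1 - (if A d then (0 : ℝ) else 1) := by
      funext d; split_ifs <;> simp
    rw [this, av_sub (fun _ => (1 : ℝ)) (fun d => if A d then (0 : ℝ) else 1), av_const]
    rfl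
  have hex : ∃ r, A (dt m c r) := by
    by_contra hno
    push Not at hno
    have : av m (fun d => if A d then (1 : ℝ) else 0) c ≤ 0 := av_le fun r => by simp [hno r]
    linarith
  obtain ⟨r₀, hr₀⟩ := hex
  -- strict inequality
  have hle : ∀ r, q * (if A (dt m c r) then (1 : ℝ) else 0) ≤ Φ (dt m c r) := by
    intro r
    split_ifs with hr
    · simpa using (hcon r hr).le
    · simpa using h0 r
  have hlt : q * (if A (dt m c r₀) then (1 : ℝ) else 0) < Φ (dt m c r₀) := by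
    simpa [hr₀] using hcon r₀ hr₀
  have hs : av m (fun d => q * (if A d then (1 : ℝ) else 0)) c < av m Φ c := by
    simp only [av, smul_eq_mul]
    exact mul_lt_mul_of_pos_left (sum_lt_sum (fun r _ => hle r) ⟨r₀, mem_univ _, hlt⟩) (pos2 t m)
  rw [av_mul, hgood] at hs
  have : q * (1 - β) ≤ q * (1 - bad m A c) := by
    apply mul_le_mul_of_nonneg_left _ hq0
    linarith
  have h5 : q * (1 - β) = Φ₀ := by
    rw [hq]; field_simp
  linarith

theorem bad1_nonneg (A : ℤ → Prop) (j : ℤ) : 0 ≤ bad1 m A j := by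
  classical
  exact av1_nonneg fun r => by split_ifs <;> simp

theorem bad1_mono {A B : ℤ → Prop} {j : ℤ} (h : ∀ d, A d → B d) :
    bad1 m B j ≤ bad1 m A j := by
  classical
  refine av1_mono' fun d => ?_
  by_cases hA : A d
  · simp [hA, h d hA]
  · simp only [hA, if_false]
    split_ifs <;> simp

theorem markov1 {G : ℤ → ℝ} {j : ℤ} {κ : ℝ} (hκ : 0 < κ) (h : ∀ d, 0 ≤ G d) :
    bad1 m (fun d => G d ≤ κ) j ≤ av1 m G j / κ := by
  classical
  rw [le_div_iff₀ hκ, mul_comm, bad1, ← av1_mul]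
  refine av1_mono' fun d => ?_
  split_ifs with hG
  · simpa using h d
  · push Not at hG
    linarith

end

/-- dependent recursion: a run of states -/
theorem exists_run {S : ℕ → Type*} (Inv : ∀ τ, S τ → Prop) (Rel : ∀ τ, S τ → S (τ + 1) → Prop)
    (h0 : ∃ s, Inv 0 s) (hs : ∀ τ s, Inv τ s → ∃ s', Inv (τ + 1) s' ∧ Rel τ s s') :
    ∃ run : ∀ τ, S τ, (∀ τ, Inv τ (run τ)) ∧ ∀ τ, Rel τ (run τ) (run (τ + 1)) := by
  classical
  let step : ∀ τ, {s : S τ // Inv τ s} → {s : S (τ + 1) // Inv (τ + 1) s} := fun τ s =>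
    ⟨Classical.choose (hs τ s.1 s.2), (Classical.choose_spec (hs τ s.1 s.2)).1⟩
  let f : ∀ τ, {s : S τ // Inv τ s} := fun τ =>
    Nat.rec ⟨Classical.choose h0, Classical.choose_spec h0⟩ (fun τ s => step τ s) τ
  refine ⟨fun τ => (f τ).1, fun τ => (f τ).2, fun τ => ?_⟩
  exact (Classical.choose_spec (hs τ (f τ).1 (f τ).2)).2

end Pool.Agent.BC.H51
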