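import Pool.Agent.BC.Stmts
import Pool.Agent.Helper51_BC.Tool

/-!
# BC: assembly
-/

set_option autoImplicit false

open Finset MeasureTheory Filter Topology

noncomputable section

namespace Pool.Agent.BC.H51

open Pool.Agent.BC

section

variable {X : Type} [NormedAddCommGroup X] [NormedSpace ℝ X]

theorem dq_isT (f : ℝ → X) (hf : LipschitzWith 1 f) : IsT (dq f) := by
  constructor
  · intro n j
    unfold dq
    rw [norm_smul, Real.norm_of_nonneg (by positivity)]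
    have h := hf.dist_le_mul (((j : ℝ) + 1) / 2 ^ n) ((j : ℝ) / 2 ^ n)
    rw [dist_eq_norm, Real.dist_eq] at h
    have e : ((j : ℝ) + 1) / 2 ^ n - (j : ℝ) / 2 ^ n = (2 ^ n)⁻¹ := by ring
    rw [e, abs_of_pos (by positivity)] at h
    simp only [NNReal.coe_one, one_mul] at h
    calc (2 : ℝ) ^ n * _ ≤ 2 ^ n * (2 ^ n)⁻¹ := by gcongr
      _ = 1 := by field_simp
  · intro n j
    unfold dq
    have e1 : (((2 * j : ℤ) : ℝ) + 1) / 2 ^ (n + 1) = (((2 * j + 1 : ℤ)) : ℝ) / 2 ^ (n + 1) := by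
      push_cast; ring
    have e2 : (((2 * j + 1 : ℤ) : ℝ) + 1) / 2 ^ (n + 1) = ((j : ℝ) + 1) / 2 ^ n := by
      push_cast; field_simp; ring
    have e3 : (((2 * j : ℤ) : ℝ)) / 2 ^ (n + 1) = (j : ℝ) / 2 ^ n := by
      push_cast; field_simp; ring
    rw [e1, e2, e3, ← smul_add, smul_smul]
    have e4 : (2 : ℝ)⁻¹ * 2 ^ (n + 1) = 2 ^ n := by ring
    rw [e4]
    congr 1
    abel

theorem sg_smul {n : ℕ} (a : ℝ) (z : Fin n → X) : sg (fun i => a • z i) = |a| * sg z := by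
  unfold sg
  have : ∀ e : Fin n → Bool, ‖∑ i, (if e i then (1 : ℝ) else -1) • (a • z i)‖ =
      |a| * ‖∑ i, (if e i then (1 : ℝ) else -1) • z i‖ := by
    intro e
    have : ∑ i, (if e i then (1 : ℝ) else -1) • (a • z i) =
        a • ∑ i, (if e i then (1 : ℝ) else -1) • z i := by
      rw [smul_sum]
      exact sum_congr rfl fun i _ => smul_comm _ _ _
    rw [this, norm_smul, Real.norm_eq_abs]
  simp only [this]
  rw [← mul_sum]
  ring

theorem sg_nonneg {n : ℕ} (z : Fin n → X) : 0 ≤ sg z := by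
  unfold sg; positivity

/-- a summable choice of the constants -/
theorem prod_bound (P : ℝ) (hP : 1 < P) :
    (∀ t : ℕ, 0 < Real.log P / 2 ^ (t + 1)) ∧
    ∀ t T : ℕ, ∏ i ∈ Ico t T, (1 + Real.log P / 2 ^ (i + 1)) ≤ P := by
  have hl : 0 < Real.log P := Real.log_pos hP
  refine ⟨fun t => by positivity, fun t T => ?_⟩
  have h1 : ∀ T : ℕ, ∑ i ∈ range T, Real.log P / 2 ^ (i + 1) = Real.log P * (1 - 1 / 2 ^ T) := by
    intro T
    induction T with
    | zero => simp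
    | succ T ih => rw [sum_range_succ, ih]; field_simp; ring
  have h2 : ∑ i ∈ Ico t T, Real.log P / 2 ^ (i + 1) ≤ Real.log P := by
    calc ∑ i ∈ Ico t T, Real.log P / 2 ^ (i + 1)
        ≤ ∑ i ∈ range T, Real.log P / 2 ^ (i + 1) := by
          apply sum_le_sum_of_subset_of_nonneg
          · intro i hi
            simp only [mem_Ico] at hi
            simp [hi.2]
          · intro i _ _
            positivity
      _ ≤ Real.log P := by
          rw [h1]
          have : (0 : ℝ) ≤ 1 / 2 ^ T := by positivity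
          nlinarith
  calc ∏ i ∈ Ico t T, (1 + Real.log P / 2 ^ (i + 1))
      ≤ ∏ i ∈ Ico t T, Real.exp (Real.log P / 2 ^ (i + 1)) := by
        apply Finset.prod_le_prod
        · intro i _
          positivity
        · intro i _
          have := Real.add_one_le_exp (Real.log P / 2 ^ (i + 1))
          linarith
    _ = Real.exp (∑ i ∈ Ico t T, Real.log P / 2 ^ (i + 1)) := by rw [Real.exp_sum]
    _ ≤ Real.exp (Real.log P) := by gcongr
    _ = P := Real.exp_log (by linarith)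

theorem rev_lt (n j : ℕ) : rev n j < 2 ^ n := by
  induction n generalizing j with
  | zero => simp [rev]
  | succ n ih =>
    have h := ih (j / 2)
    have h2 : j % 2 ≤ 1 := by omega
    simp only [rev]
    calc rev n (j / 2) + j % 2 * 2 ^ n < 2 ^ n + 1 * 2 ^ n := by
          have : j % 2 * 2 ^ n ≤ 1 * 2 ^ n := Nat.mul_le_mul_right _ h2
          omega
      _ = 2 ^ (n + 1) := by ring

theorem rev_even (n j : ℕ) : rev (n + 1) (2 * j) = rev n j := by
  simp only [rev]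
  have h1 : 2 * j / 2 = j := by omega
  have h2 : 2 * j % 2 = 0 := by omega
  rw [h1, h2]
  simp

theorem rev_odd (n j : ℕ) : rev (n + 1) (2 * j + 1) = rev n j + 2 ^ n := by
  simp only [rev]
  have h1 : (2 * j + 1) / 2 = j := by omega
  have h2 : (2 * j + 1) % 2 = 1 := by omega
  rw [h1, h2]
  simp

end

/-- the conclusion of the theorem -/
def Concl (X : Type) [NormedAddCommGroup X] [NormedSpace ℝ X] (η : ℝ) : Prop :=
  ∃ (Y : Submodule ℝ X) (e : ℕ → X), IsClosed (Y : Set X) ∧ (∀ i, e i ∈ Y) ∧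
    (∀ y ∈ Y, ∃! a : ℕ → ℝ, Tendsto (fun n => ∑ i ∈ range n, a i • e i) atTop (𝓝 y)) ∧
    (∀ (a : ℕ → ℝ) (m n : ℕ), m ≤ n →
      ‖∑ i ∈ range m, a i • e i‖ ≤ (1 + η) * ‖∑ i ∈ range n, a i • e i‖) ∧
    ∃ (g : ℝ → X) (δ : ℝ), (∀ t, g t ∈ Y) ∧ LipschitzWith 1 g ∧
      (∀ t : ℝ, 0 < t → ¬ DifferentiableAt ℝ g t) ∧ 0 < δ ∧
      ∀ n j : ℕ, δ ≤ ‖dq g (n + 1) (2 * j) - dq g (n + 1) (2 * j + 1)‖

theorem main1 (hCau : CauStmt) (hLeb : LebStmt) (hNod : NodStmt) (hRuc : RucStmt)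
    (hLim : LimStmt) (hBas : BasStmt) (hSch : SchStmt) (hCur : CurStmt)
    (X : Type) [NormedAddCommGroup X] [NormedSpace ℝ X] [CompleteSpace X]
    (f : ℝ → X) (hf : LipschitzWith 1 f) (hn : ¬ ∀ᵐ t : ℝ, DifferentiableAt ℝ f t)
    (M₀ γ : ℝ) (hM : 0 ≤ M₀) (hγ : 0 < γ) (hγ1 : γ < 1) (hTy : Ty (dq f) M₀ γ)
    (η : ℝ) (hη : 0 < η) : Concl X η := by
  have hx := dq_isT f hf
  -- a node with oscillation
  have h1 : ∃ j : ℤ, ∃ ε : ℝ, 0 < ε ∧ ∀ m, ε ≤ av1 m (hh (dq f) m) j := by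
    by_contra hno
    push Not at hno
    apply hn
    have hj : ∀ j : ℤ, ∀ᵐ t : ℝ, t ∈ Set.Ioo (j : ℝ) (j + 1) → DifferentiableAt ℝ f t := by
      intro j
      refine hLeb X f hf j (hCau X (dq f) hx j ?_)
      intro ε hε
      obtain ⟨m, hm⟩ := hno j ε hε
      exact ⟨m, hm.le⟩
    have h2 : ∀ᵐ t : ℝ, ∀ j : ℤ, t ∈ Set.Ioo (j : ℝ) (j + 1) → DifferentiableAt ℝ f t :=
      ae_all_iff.2 hj
    have h3 : ∀ᵐ t : ℝ, t ∉ Set.range (fun j : ℤ => (j : ℝ)) := by
      rw [ae_iff]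
      have : {a : ℝ | ¬ a ∉ Set.range (fun j : ℤ => (j : ℝ))} = Set.range (fun j : ℤ => (j : ℝ)) := by
        ext a; simp
      rw [this]
      exact (Set.countable_range _).measure_zero _
    filter_upwards [h2, h3] with t ht ht'
    refine ht ⌊t⌋ ⟨lt_of_le_of_ne (Int.floor_le t) ?_, Int.lt_floor_add_one t⟩
    intro h
    exact ht' ⟨⌊t⌋, h⟩
  obtain ⟨j, ε₀, hε₀, hj⟩ := h1
  have h2 := hNod X (dq f) hx j ε₀ hε₀ hj
  -- the constant
  obtain ⟨P, hP1, hP3⟩ : ∃ P : ℝ, 1 < P ∧ P ^ 3 ≤ 1 + η := by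
    refine ⟨(1 + η) ^ ((3 : ℝ)⁻¹), ?_, ?_⟩
    · exact Real.one_lt_rpow (by linarith) (by norm_num)
    · rw [← Real.rpow_natCast, ← Real.rpow_mul (by linarith)]
      norm_num
  obtain ⟨hε, hprod⟩ := prod_bound P hP1
  obtain ⟨v, δ, M, ρ, hδ, hρ, hρ1, hS⟩ := hRuc X (dq f) hx M₀ γ hM hγ hγ1 hTy (ε₀ / 2)
    (by positivity) h2 (fun t => Real.log P / 2 ^ (t + 1)) hε
  obtain ⟨Y, hY1, hY2⟩ := hLim X v δ M ρ P _ hρ hρ1 hε hprod hS
  obtain ⟨hb1, hb2, hb3, hb4⟩ := hBas X v δ M ρ P _ Y hδ hε hprod hS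
    (fun k j hjk => (hY1 k j hjk).2) hY2
  set W : Submodule ℝ X := (Submodule.span ℝ (Set.range (bs Y))).topologicalClosure with hW
  have hWc : IsClosed (W : Set X) := Submodule.isClosed_topologicalClosure _
  have hsub : ∀ z ∈ Submodule.span ℝ (Set.range (bs Y)), z ∈ W := fun z hz =>
    Submodule.le_topologicalClosure _ hz
  have hP0 : 0 < P := by linarith
  obtain ⟨g, hg1, hg2, hg3, hg4⟩ := hCur X W (fun n j => Y n (rev n j)) (δ / P) hWc
    (by positivity) (fun n j => hsub _ (hb3 n _ (rev_lt n j)))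
    (fun n j => (hY1 n _ (rev_lt n j)).1)
    (fun n j => by
      simp only [rev_even, rev_odd]
      exact (hY1 n _ (rev_lt n j)).2)
    (fun n j => by
      simp only [rev_even, rev_odd]
      exact hb4 n _ (rev_lt n j))
  refine ⟨W, bs Y, hWc, fun i => hsub _ (Submodule.subset_span ⟨i, rfl⟩), ?_, ?_, g, δ / P, hg1,
    hg2, hg3, by positivity, ?_⟩
  · exact hSch X (bs Y) (P ^ 3) hb2 hb1
  · intro a m n hmn
    refine (hb1 a m n hmn).trans ?_
    gcongr
  · intro n j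
    have e1 := hg4 (n + 1) (2 * j)
    have e2 := hg4 (n + 1) (2 * j + 1)
    have e3 : dq g (n + 1) (2 * (j : ℤ)) = Y (n + 1) (rev (n + 1) (2 * j)) := by
      rw [← e1]; unfold dq; push_cast; rfl
    have e4 : dq g (n + 1) (2 * (j : ℤ) + 1) = Y (n + 1) (rev (n + 1) (2 * j + 1)) := by
      rw [← e2]; unfold dq; push_cast; rfl
    rw [e3, e4, rev_even, rev_odd]
    exact hb4 n _ (rev_lt n j)

theorem main2 (hSgn : SgnStmt) (hBcv : BcvStmt) (hCau : CauStmt) (hLeb : LebStmt)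
    (hNod : NodStmt) (hRuc : RucStmt)
    (hLim : LimStmt) (hBas : BasStmt) (hSch : SchStmt) (hCur : CurStmt)
    (X : Type) [NormedAddCommGroup X] [NormedSpace ℝ X] [CompleteSpace X]
    (f : ℝ → X) (K : NNReal) (hf : LipschitzWith K f)
    (hn : ¬ ∀ᵐ t : ℝ, DifferentiableAt ℝ f t)
    (hX : BConvex X ∨ ∃ M γ : ℝ, 0 < γ ∧ γ < 1 ∧ RC (dq f) M γ)
    (η : ℝ) (hη : 0 < η) : Concl X η := by
  set L : ℝ := (K : ℝ) + 1 with hL
  have hL0 : 0 < L := by positivity
  set f₁ : ℝ → X := fun t => L⁻¹ • f t with hf₁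
  have hlip : LipschitzWith 1 f₁ := by
    refine LipschitzWith.of_dist_le_mul fun s t => ?_
    have h := hf.dist_le_mul s t
    rw [hf₁, dist_smul₀, Real.norm_of_nonneg (by positivity)]
    simp only [NNReal.coe_one, one_mul]
    calc L⁻¹ * dist (f s) (f t) ≤ L⁻¹ * (K * dist s t) := by gcongr
      _ ≤ L⁻¹ * (L * dist s t) := by
        gcongr
        linarith
      _ = dist s t := by field_simp
  have hn1 : ¬ ∀ᵐ t : ℝ, DifferentiableAt ℝ f₁ t := by
    intro h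
    apply hn
    filter_upwards [h] with t ht
    have : f = fun t => L • f₁ t := by
      funext t
      rw [hf₁]
      simp only [smul_smul]
      rw [mul_inv_cancel₀ hL0.ne', one_smul]
    rw [this]
    exact ht.const_smul L
  have hx := dq_isT f₁ hlip
  have hdq : ∀ n j, dq f₁ n j = L⁻¹ • dq f n j := by
    intro n j
    simp only [dq, hf₁, ← smul_sub]
    exact smul_comm _ _ _
  obtain ⟨M, γ, hM, hγ, hγ1, hRC⟩ : ∃ M γ : ℝ, 0 ≤ M ∧ 0 < γ ∧ γ < 1 ∧ RC (dq f₁) M γ := by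
    rcases hX with hX | ⟨M, γ, hγ, hγ1, hRC⟩
    · obtain ⟨M, γ, hM, hγ, hγ1, h⟩ := hBcv X hX
      exact ⟨M, γ, hM, hγ, hγ1, fun r n c => h r _ fun i => hx.1 _ _⟩
    · have hM : 0 ≤ M := by
        have h := hRC 0 0 (fun _ => 0)
        have h2 := sg_nonneg (fun i : Fin (2 ^ 0) => ((1 : ℝ) / 2) ^ 0 • dq f 0 0)
        have h3 : 0 ≤ M * γ ^ 0 := h2.trans h
        simpa using h3
      refine ⟨L⁻¹ * M, γ, by positivity, hγ, hγ1, fun r n c => ?_⟩
      have e : (fun i => ((1 : ℝ) / 2) ^ r • dq f₁ n (c i)) =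
          fun i => L⁻¹ • (((1 : ℝ) / 2) ^ r • dq f n (c i)) := by
        funext i
        rw [hdq]
        exact smul_comm _ _ _
      rw [e, sg_smul, abs_of_pos (by positivity), mul_assoc]
      gcongr
      exact hRC r n c
  exact main1 hCau hLeb hNod hRuc hLim hBas hSch hCur X f₁ hlip hn1 (2 * M) γ (by positivity) hγ
    hγ1 (hSgn X (dq f₁) hx M γ hRC) η hη

end Pool.Agent.BC.H51
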