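import Pool.Agent.BC.Stmts
import Pool.Agent.Helper20_BC.Jen

/-!
# SGN: symmetrization
-/

set_option autoImplicit false

open Finset

noncomputable section

namespace Pool.Agent.BC.H51

open Pool.Agent.BC

section

variable {X : Type} [NormedAddCommGroup X] [NormedSpace ℝ X]

/-- exchange two copies in the coordinates with the sign `-1` -/
def swp {t : ℕ} {A : Type} (e : Fin t → Bool) :
    ((Fin t → A) × (Fin t → A)) ≃ ((Fin t → A) × (Fin t → A)) where
  toFun p := (fun i => if e i then p.1 i else p.2 i, fun i => if e i then p.2 i else p.1 i)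
  invFun p := (fun i => if e i then p.1 i else p.2 i, fun i => if e i then p.2 i else p.1 i)
  left_inv p := by
    ext i <;> simp only <;> split_ifs <;> rfl
  right_inv p := by
    ext i <;> simp only <;> split_ifs <;> rfl

theorem swap_sum {t : ℕ} {A : Type} [Fintype A] (w : Fin t → A → X) (e : Fin t → Bool) :
    ∑ p : (Fin t → A) × (Fin t → A), ‖∑ i, (w i (p.1 i) - w i (p.2 i))‖ =
      ∑ p : (Fin t → A) × (Fin t → A),
        ‖∑ i, (if e i then (1 : ℝ) else -1) • (w i (p.1 i) - w i (p.2 i))‖ := by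
  symm
  apply Fintype.sum_equiv (swp e)
  intro p
  congr 1
  apply Finset.sum_congr rfl
  intro i _
  simp only [swp, Equiv.coe_fn_mk]
  by_cases h : e i
  · simp [h]
  · simp [h]

theorem sg_sub_le {n : ℕ} (z z' : Fin n → X) : sg (fun i => z i - z' i) ≤ sg z + sg z' := by
  unfold sg
  rw [← mul_add, ← Finset.sum_add_distrib]
  apply mul_le_mul_of_nonneg_left _ (by positivity)
  apply Finset.sum_le_sum
  intro e _
  have : ∑ i, (if e i then (1 : ℝ) else -1) • (z i - z' i) =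
      ∑ i, (if e i then (1 : ℝ) else -1) • z i - ∑ i, (if e i then (1 : ℝ) else -1) • z' i := by
    rw [← Finset.sum_sub_distrib]
    apply Finset.sum_congr rfl
    intro i _
    rw [smul_sub]
  rw [this]
  exact norm_sub_le _ _

theorem sym_le {t : ℕ} {A : Type} [Fintype A] (w : Fin t → A → X) (B : ℝ)
    (hB : ∀ r : Fin t → A, sg (fun i => w i (r i)) ≤ B) :
    ∑ p : (Fin t → A) × (Fin t → A), ‖∑ i, (w i (p.1 i) - w i (p.2 i))‖ ≤
      (Fintype.card ((Fin t → A) × (Fin t → A)) : ℝ) * (2 * B) := by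
  have h1 : ∀ e : Fin t → Bool, ∑ p : (Fin t → A) × (Fin t → A),
      ‖∑ i, (w i (p.1 i) - w i (p.2 i))‖ = ∑ p : (Fin t → A) × (Fin t → A),
        ‖∑ i, (if e i then (1 : ℝ) else -1) • (w i (p.1 i) - w i (p.2 i))‖ := swap_sum w
  have h2 : ∑ p : (Fin t → A) × (Fin t → A), ‖∑ i, (w i (p.1 i) - w i (p.2 i))‖ =
      ∑ p : (Fin t → A) × (Fin t → A), sg (fun i => w i (p.1 i) - w i (p.2 i)) := by
    have h3 : ((2 : ℝ) ^ t)⁻¹ * ∑ _e : Fin t → Bool, ∑ p : (Fin t → A) × (Fin t → A),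
        ‖∑ i, (w i (p.1 i) - w i (p.2 i))‖ = ∑ p : (Fin t → A) × (Fin t → A),
        ‖∑ i, (w i (p.1 i) - w i (p.2 i))‖ := by
      rw [Finset.sum_const, Finset.card_univ, Fintype.card_fun, Fintype.card_bool,
        Fintype.card_fin, nsmul_eq_mul, ← mul_assoc]
      push_cast
      rw [inv_mul_cancel₀ (by positivity), one_mul]
    rw [← h3]
    unfold sg
    rw [← Finset.mul_sum]
    congr 1
    refine Eq.trans ?_ Finset.sum_comm
    apply Finset.sum_congr rfl
    intro e _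
    exact h1 e
  rw [h2]
  calc ∑ p : (Fin t → A) × (Fin t → A), sg (fun i => w i (p.1 i) - w i (p.2 i))
      ≤ ∑ _p : (Fin t → A) × (Fin t → A), (2 * B) := by
        apply Finset.sum_le_sum
        intro p _
        have h := sg_sub_le (fun i => w i (p.1 i)) (fun i => w i (p.2 i))
        have ha := hB p.1
        have hb := hB p.2
        linarith
    _ = _ := by rw [Finset.sum_const, Finset.card_univ, nsmul_eq_mul]

end

theorem sgn : SgnStmt := by
  intro X _ _ x hx M γ hRC r n c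
  have hJ := (H20.jen X x hx).2.2.2 (2 ^ r) n
  set θ : Fin (2 ^ r) → ℝ := fun _ => ((1 : ℝ) / 2) ^ r with hθ
  unfold QP
  apply ciSup_le
  intro m
  set N : ℝ := ((2 : ℝ) ^ m) ^ (2 ^ r) with hN
  have hN0 : 0 < N := by positivity
  set w : Fin (2 ^ r) → Fin (2 ^ m) → X :=
    fun i a => ((1 : ℝ) / 2) ^ r • x (n + m) (2 ^ m * c i + (a : ℕ)) with hw
  have hB : ∀ q : Fin (2 ^ r) → Fin (2 ^ m), sg (fun i => w i (q i)) ≤ M * γ ^ r := by
    intro q
    exact hRC r (n + m) (dt m c q)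
  have hs := sym_le w (M * γ ^ r) hB
  have hcard : (Fintype.card ((Fin (2 ^ r) → Fin (2 ^ m)) × (Fin (2 ^ r) → Fin (2 ^ m))) : ℝ) =
      N * N := by
    rw [Fintype.card_prod, Fintype.card_fun, Fintype.card_fin, Fintype.card_fin]
    push_cast
    rfl
  rw [hcard, Fintype.sum_prod_type] at hs
  have hJc : J x n c θ = av m (fun d => J x (n + m) d θ) c := (hJ m c θ).1.symm
  have hJd : ∀ q : Fin (2 ^ r) → Fin (2 ^ m), J x (n + m) (dt m c q) θ = ∑ i, w i (q i) := by
    intro q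
    rfl
  have hle : ∀ q : Fin (2 ^ r) → Fin (2 ^ m),
      ‖J x (n + m) (dt m c q) θ - J x n c θ‖ ≤
        N⁻¹ * ∑ q' : Fin (2 ^ r) → Fin (2 ^ m), ‖∑ i, (w i (q i) - w i (q' i))‖ := by
    intro q
    have h1 : J x (n + m) (dt m c q) θ - J x n c θ =
        N⁻¹ • ∑ q' : Fin (2 ^ r) → Fin (2 ^ m), ∑ i, (w i (q i) - w i (q' i)) := by
      rw [hJc]
      unfold av
      have h2 : ∑ q' : Fin (2 ^ r) → Fin (2 ^ m), ∑ i, (w i (q i) - w i (q' i)) =
          N • J x (n + m) (dt m c q) θ -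
            ∑ q' : Fin (2 ^ r) → Fin (2 ^ m), J x (n + m) (dt m c q') θ := by
        simp only [Finset.sum_sub_distrib]
        congr 1
        rw [Finset.sum_const, Finset.card_univ, Fintype.card_fun, Fintype.card_fin,
          Fintype.card_fin, hJd, ← Nat.cast_smul_eq_nsmul ℝ]
        push_cast
        rfl
      rw [h2, smul_sub, smul_smul, inv_mul_cancel₀ hN0.ne', one_smul]
    rw [h1, norm_smul, Real.norm_of_nonneg (by positivity)]
    exact mul_le_mul_of_nonneg_left (norm_sum_le _ _) (by positivity)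
  unfold av
  rw [smul_eq_mul]
  calc N⁻¹ * ∑ q : Fin (2 ^ r) → Fin (2 ^ m), ‖J x (n + m) (dt m c q) θ - J x n c θ‖
      ≤ N⁻¹ * ∑ q : Fin (2 ^ r) → Fin (2 ^ m),
          (N⁻¹ * ∑ q' : Fin (2 ^ r) → Fin (2 ^ m), ‖∑ i, (w i (q i) - w i (q' i))‖) := by
        apply mul_le_mul_of_nonneg_left _ (by positivity)
        exact Finset.sum_le_sum fun q _ => hle q
    _ = N⁻¹ * N⁻¹ * ∑ q : Fin (2 ^ r) → Fin (2 ^ m), ∑ q' : Fin (2 ^ r) → Fin (2 ^ m),
          ‖∑ i, (w i (q i) - w i (q' i))‖ := by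
        rw [← Finset.mul_sum, mul_assoc]
    _ ≤ N⁻¹ * N⁻¹ * (N * N * (2 * (M * γ ^ r))) := by
        apply mul_le_mul_of_nonneg_left hs (by positivity)
    _ = 2 * M * γ ^ r := by
        field_simp

end Pool.Agent.BC.H51
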