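import Pool.Agent.Helper51_BC.Fin
import Pool.Agent.Helper51_BC.Sgn
import Pool.Agent.Helper20_BC.Tow
import Pool.Agent.Helper20_BC.Jen
import Pool.Agent.Helper20_BC.Hhb
import Pool.Agent.Helper24_BC.Hlk
import Pool.Agent.Helper30_BC.Cau
import Pool.Agent.Helper36_BC.Iso
import Pool.Agent.Helper36_BC.Cur
import Pool.Agent.Helper36_BC.Mar
import Pool.Agent.Helper3_BC.Rdo
import Pool.Agent.Helper48_BC.Sup
import Pool.Agent.Helper54_BC.Lbd
import Pool.Agent.Helper54_BC.Nod
import Pool.Agent.Helper54_BC.Stp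
import Pool.Agent.Helper65_BC.Ruc
import Pool.Agent.Helper65_BC.Rup
import Pool.Agent.Helper76_BC.Sta
import Pool.Agent.Helper77_BC.Pot
import Pool.Agent.Helper77_BC.Phb
import Pool.Agent.Helper77_BC.Sch
import Pool.Agent.Helper77_BC.Bcv
import Pool.Agent.Helper78_BC.Lim
import Pool.Agent.Helper8_BC.BAS
import Pool.Agent.Helper23_BC.RUF
import Pool.Agent.Helper29_BC.Hpe
import Pool.Agent.Helper81_BC.Leb
import Pool.Agent.Helper8_BC.WGT

/-!
# BC: all the modules together
-/

set_option autoImplicit false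

open Finset MeasureTheory Filter Topology

noncomputable section

namespace Pool.Agent.BC.H51

theorem main3 (X : Type) [NormedAddCommGroup X] [NormedSpace ℝ X] [CompleteSpace X]
    (f : ℝ → X) (K : NNReal) (hf : LipschitzWith K f)
    (hn : ¬ ∀ᵐ t : ℝ, DifferentiableAt ℝ f t)
    (hX : BConvex X ∨ ∃ M γ : ℝ, 0 < γ ∧ γ < 1 ∧ RC (dq f) M γ)
    (η : ℝ) (hη : 0 < η) : Concl X η := by
  have tow : TowStmt := H20.tow
  have hpe : HpeStmt := H29.hpe
  have leb : LebStmt := H81.leb
  have wgt : WgtStmt := H8.wgt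
  have jen : JenStmt := H20.jen
  have hhb : HhbStmt := H20.hhb
  have mar : MarStmt := H36.mar
  have iso : IsoStmt := H36.iso
  have sup : SupStmt := H48.sup tow
  have sta : StaStmt := H76.sta sup jen
  have hlk : HlkStmt := H24.hlk sup hhb mar
  have rdo : RdoStmt := H3.rdo iso mar jen
  have rup : RupStmt := H65.rup mar jen
  have stp : StpStmt := H54.stp sta hlk hpe rdo rup mar
  have pot : PotStmt := H77.pot tow mar jen
  have phb : PhbStmt := H77.phb mar wgt
  have ruf : RufStmt := H23.ruf stp pot wgt phb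
  have lbd : LbdStmt := H54.lbd hhb iso jen
  have ruc : RucStmt := H65.ruc ruf lbd
  have nod : NodStmt := H54.nod sta hlk hhb mar
  have cau : CauStmt := H30.cau tow
  exact main2 sgn H77.bcv cau leb nod ruc H78.lim H8.bas H77.sch H36.cur X f K hf hn hX η hη

end Pool.Agent.BC.H51
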